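import Mathlib
import Pool.Agent.H97R2.BP.Defs
import Pool.Agent.H97R2.BP.Defs2

/-!
Task CORNER: the corner map is almost row and column bounded.
-/

open scoped ComplexOrder InnerProductSpace ComplexConjugate TensorProduct
open Finset H759R2.Kad H710R2.DP

noncomputable section

namespace H97R2.BP

namespace ZZ48

variable {H : Type} [NormedAddCommGroup H] [InnerProductSpace ℂ H] [CompleteSpace H]

/-- the quadratic form of `∑ star (a i) * a i` -/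
theorem inner_col {ι : Type} [Fintype ι] (a : ι → (H →L[ℂ] H)) (v w : H) :
    ⟪v, (∑ i, star (a i) * a i) w⟫_ℂ = ∑ i, ⟪a i v, a i w⟫_ℂ := by
  rw [_root_.sum_apply, inner_sum]
  refine sum_congr rfl fun i _ => ?_
  rw [mul_apply_eq_comp, ContinuousLinearMap.star_eq_adjoint,
    ContinuousLinearMap.adjoint_inner_right]

theorem col_le {ι : Type} [Fintype ι] (a : ι → (H →L[ℂ] H)) {B : ℝ} (hB : 0 ≤ B)
    (h : ∀ v, ∑ i, ‖a i v‖ ^ 2 ≤ B * ‖v‖ ^ 2) : ‖∑ i, star (a i) * a i‖ ≤ B := by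
  refine ContinuousLinearMap.opNorm_le_bound _ hB fun v => ?_
  set w := (∑ i, star (a i) * a i) v with hw
  have h1 : ‖w‖ ^ 2 ≤ ∑ i, ‖a i w‖ * ‖a i v‖ := by
    have e1 : ((‖w‖ ^ 2 : ℝ) : ℂ) = ∑ i, ⟪a i w, a i v⟫_ℂ := by
      rw [← inner_col, ← hw, inner_self_eq_norm_sq_to_K]
      push_cast
      rfl
    have e2 : ‖w‖ ^ 2 = ‖((‖w‖ ^ 2 : ℝ) : ℂ)‖ := by
      rw [Complex.norm_real, Real.norm_of_nonneg (by positivity)]
    rw [e2, e1]
    exact (norm_sum_le _ _).trans (sum_le_sum fun i _ => norm_inner_le_norm _ _)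
  have h2 : (∑ i, ‖a i w‖ * ‖a i v‖) ^ 2 ≤ (∑ i, ‖a i w‖ ^ 2) * ∑ i, ‖a i v‖ ^ 2 :=
    sum_mul_sq_le_sq_mul_sq _ _ _
  have h3 : (‖w‖ ^ 2) ^ 2 ≤ (B * ‖w‖ ^ 2) * (B * ‖v‖ ^ 2) := by
    refine (pow_le_pow_left₀ (by positivity) h1 2).trans (h2.trans ?_)
    exact mul_le_mul (h w) (h v) (sum_nonneg fun _ _ => by positivity) (by positivity)
  rcases eq_or_ne ‖w‖ 0 with h0 | h0
  · rw [h0]; positivity
  · have h4 : 0 < ‖w‖ := lt_of_le_of_ne (norm_nonneg _) (Ne.symm h0)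
    have h5 : ‖w‖ ^ 2 ≤ (B * ‖v‖) ^ 2 := by
      have h6 : ‖w‖ ^ 2 * ‖w‖ ^ 2 ≤ ‖w‖ ^ 2 * (B * ‖v‖) ^ 2 := by nlinarith
      exact le_of_mul_le_mul_left h6 (by positivity)
    exact (pow_le_pow_iff_left₀ (norm_nonneg _) (by positivity) two_ne_zero).1 h5

theorem norm_le_of_sq {q : H →L[ℂ] H} (hq : star q = q) (hqq : q * q = q) : ‖q‖ ≤ 1 := by
  have h1 : ‖q‖ * ‖q‖ = ‖q‖ := by
    rw [← CStarRing.norm_star_mul_self, hq, hqq]
  rcases eq_or_ne ‖q‖ 0 with h0 | h0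
  · rw [h0]; exact zero_le_one
  · exact le_of_eq (mul_left_cancel₀ h0 (by rw [h1, mul_one]))

section

variable {L : ℕ} {v : Fin (L + 1) → (H →L[ℂ] H)} {q : H →L[ℂ] H}

theorem v_mul_q (hq : IsPr q) (hv : ∀ i j, star (v i) * v j = if i = j then q else 0)
    (i : Fin (L + 1)) : v i * q = v i := by
  have h1 : star (v i) * v i = q := by rw [hv, if_pos rfl]
  have h2 : star (v i * q - v i) * (v i * q - v i) = 0 := by
    rw [star_sub, star_mul, hq.1, sub_mul, mul_sub, mul_sub]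
    have e1 : q * star (v i) * (v i * q) = q := by
      calc q * star (v i) * (v i * q) = q * (star (v i) * v i) * q := by noncomm_ring
        _ = q := by rw [h1, hq.2, hq.2]
    have e2 : q * star (v i) * v i = q := by
      rw [mul_assoc, h1, hq.2]
    have e3 : star (v i) * (v i * q) = q := by
      rw [← mul_assoc, h1, hq.2]
    rw [e1, e2, e3, h1]
    simp
  have h3 := CStarRing.star_mul_self_eq_zero_iff _ |>.1 h2
  exact sub_eq_zero.1 h3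

theorem q_mul_star (hq : IsPr q) (hv : ∀ i j, star (v i) * v j = if i = j then q else 0)
    (i : Fin (L + 1)) : q * star (v i) = star (v i) := by
  have := congrArg star (v_mul_q hq hv i)
  rwa [star_mul, hq.1] at this

theorem norm_v (hq : IsPr q) (hv : ∀ i j, star (v i) * v j = if i = j then q else 0)
    (i : Fin (L + 1)) : ‖v i‖ ≤ 1 := by
  have h1 : star (v i) * v i = q := by rw [hv, if_pos rfl]
  have h2 : ‖v i‖ * ‖v i‖ ≤ 1 := by
    rw [← CStarRing.norm_star_mul_self, h1]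
    exact norm_le_of_sq hq.1 hq.2
  nlinarith [norm_nonneg (v i)]

theorem norm_v_apply (hq : IsPr q) (hv : ∀ i j, star (v i) * v j = if i = j then q else 0)
    (i : Fin (L + 1)) (w : H) : ‖v i w‖ ≤ ‖w‖ :=
  ((v i).le_opNorm w).trans (mul_le_of_le_one_left (norm_nonneg _) (norm_v hq hv i))

theorem norm_star_v_apply (hq : IsPr q)
    (hv : ∀ i j, star (v i) * v j = if i = j then q else 0)
    (i : Fin (L + 1)) (w : H) : ‖star (v i) w‖ ≤ ‖w‖ :=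
  ((star (v i)).le_opNorm w).trans (mul_le_of_le_one_left (norm_nonneg _)
    ((norm_star _).trans_le (norm_v hq hv i)))

theorem sum_star_v (hq : IsPr q) (hv : ∀ i j, star (v i) * v j = if i = j then q else 0)
    (ζ : H) : ∑ i, ‖star (v i) ζ‖ ^ 2 ≤ ‖ζ‖ ^ 2 := by
  have hp : (∑ i, v i * star (v i)) * (∑ i, v i * star (v i)) = ∑ i, v i * star (v i) := by
    rw [Finset.sum_mul]
    refine sum_congr rfl fun i _ => ?_
    rw [Finset.mul_sum, Finset.sum_eq_single i]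
    · calc v i * star (v i) * (v i * star (v i)) = v i * (star (v i) * v i) * star (v i) := by
            noncomm_ring
        _ = v i * star (v i) := by rw [hv, if_pos rfl, v_mul_q hq hv]
    · intro j _ hj
      calc v i * star (v i) * (v j * star (v j)) = v i * (star (v i) * v j) * star (v j) := by
            noncomm_ring
        _ = 0 := by rw [hv, if_neg (Ne.symm hj)]; simp
    · intro h; exact absurd (mem_univ i) h
  have hps : star (∑ i, v i * star (v i)) = ∑ i, v i * star (v i) := by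
    rw [star_sum]
    refine sum_congr rfl fun i _ => ?_
    rw [star_mul, star_star]
  have hn := norm_le_of_sq hps hp
  have e1 : ((∑ i, ‖star (v i) ζ‖ ^ 2 : ℝ) : ℂ) = ⟪ζ, (∑ i, v i * star (v i)) ζ⟫_ℂ := by
    have := inner_col (fun i => star (v i)) ζ ζ
    simp only [star_star] at this
    rw [this]
    push_cast
    refine sum_congr rfl fun i _ => ?_
    rw [inner_self_eq_norm_sq_to_K]
    rfl
  have h0 : 0 ≤ ∑ i, ‖star (v i) ζ‖ ^ 2 := sum_nonneg fun i _ => by positivity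
  have e2 : ∑ i, ‖star (v i) ζ‖ ^ 2 = ‖((∑ i, ‖star (v i) ζ‖ ^ 2 : ℝ) : ℂ)‖ := by
    rw [Complex.norm_real, Real.norm_of_nonneg h0]
  rw [e2, e1]
  refine (norm_inner_le_norm _ _).trans ?_
  have h3 := (∑ i, v i * star (v i)).le_opNorm ζ
  have h4 : ‖∑ i, v i * star (v i)‖ * ‖ζ‖ ≤ ‖ζ‖ := mul_le_of_le_one_left (norm_nonneg _) hn
  calc ‖ζ‖ * ‖(∑ i, v i * star (v i)) ζ‖ ≤ ‖ζ‖ * ‖ζ‖ :=
        mul_le_mul_of_nonneg_left (h3.trans h4) (norm_nonneg _)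
    _ = ‖ζ‖ ^ 2 := by ring

end

/-- the linear map `x ↦ π (P x v₀) Ω` -/
def Tm (M : VonNeumannAlgebra H) (P : (H →L[ℂ] H) →ₗ[ℂ] (H →L[ℂ] H)) (hP : ∀ x, P x ∈ M)
    (v₀ : H →L[ℂ] H) (hv : v₀ ∈ M) {K : Type} [NormedAddCommGroup K] [InnerProductSpace ℂ K]
    [CompleteSpace K] (π : M.toStarSubalgebra →⋆ₐ[ℂ] (K →L[ℂ] K)) (Ω : K) :
    (H →L[ℂ] H) →ₗ[ℂ] K where
  toFun x := π (⟨P x, hP x⟩ * ⟨v₀, hv⟩) Ω
  map_add' x y := by
    have : (⟨P (x + y), hP (x + y)⟩ * ⟨v₀, hv⟩ : M.toStarSubalgebra) =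
        ⟨P x, hP x⟩ * ⟨v₀, hv⟩ + ⟨P y, hP y⟩ * ⟨v₀, hv⟩ := by
      ext1
      change P (x + y) * v₀ = P x * v₀ + P y * v₀
      rw [map_add, add_mul]
    rw [this, map_add]; rfl
  map_smul' c x := by
    have : (⟨P (c • x), hP (c • x)⟩ * ⟨v₀, hv⟩ : M.toStarSubalgebra) =
        c • (⟨P x, hP x⟩ * ⟨v₀, hv⟩) := by
      ext1
      change P (c • x) * v₀ = c • (P x * v₀)
      rw [map_smul, smul_mul_assoc]
    rw [this, map_smul]; rfl

theorem main (hg : St_gt.{0, 0}) (M : VonNeumannAlgebra H)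
    (P : (H →L[ℂ] H) →ₗ[ℂ] (H →L[ℂ] H)) (c : ℝ) (hc : 0 ≤ c) (hP : IsProj M P c)
    (L : ℕ) (v : Fin (L + 1) → (H →L[ℂ] H)) (q : H →L[ℂ] H) (hq : IsPr q)
    (hvM : ∀ i, v i ∈ M) (hv : ∀ i j, star (v i) * v j = if i = j then q else 0)
    (hl : ∀ i j x, P (v i * star (v j) * x) = v i * star (v j) * P x)
    (K : Type) [NormedAddCommGroup K] [InnerProductSpace ℂ K] [CompleteSpace K]
    (π : M.toStarSubalgebra →⋆ₐ[ℂ] (K →L[ℂ] K)) (Ω : K) (ι : Type) [Fintype ι]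
    (y : ι → (H →L[ℂ] H)) (c₁ c₂ : ℝ) (h1 : 0 ≤ c₁) (h2 : 0 ≤ c₂) (hy1 : ColB y c₁)
    (hy2 : ColB (fun i => star (y i)) c₂) (Ry : ι → M.toStarSubalgebra)
    (hR : ∀ r, (Ry r : H →L[ℂ] H) = star (v 0) * P (v 0 * y r * star (v 0)) * v 0) :
    ∑ i, ‖π (Ry i) Ω‖ ^ 2 ≤ 3 * c ^ 2 * (c₁ + c₂ / (L + 1)) * ‖Ω‖ ^ 2 := by
  letI : PartialOrder (H →L[ℂ] H) := CStarAlgebra.spectralOrder _
  haveI : StarOrderedRing (H →L[ℂ] H) := CStarAlgebra.spectralOrderedRing _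
  set x : ι × Fin (L + 1) → (H →L[ℂ] H) := fun k => v k.2 * y k.1 * star (v 0) with hx
  set T := Tm M P hP.mem (v 0) (hvM 0) π Ω with hT
  have hTb : ∀ b, ‖T b‖ ≤ c * ‖Ω‖ * ‖b‖ := by
    intro b
    change ‖π (⟨P b, hP.mem b⟩ * ⟨v 0, hvM 0⟩) Ω‖ ≤ _
    have e1 : ‖π (⟨P b, hP.mem b⟩ * ⟨v 0, hvM 0⟩)‖ ≤
        ‖(⟨P b, hP.mem b⟩ * ⟨v 0, hvM 0⟩ : M.toStarSubalgebra)‖ :=
      NonUnitalStarAlgHom.norm_apply_le π _
    have e2 : ‖(⟨P b, hP.mem b⟩ * ⟨v 0, hvM 0⟩ : M.toStarSubalgebra)‖ ≤ c * ‖b‖ := by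
      change ‖P b * v 0‖ ≤ c * ‖b‖
      calc ‖P b * v 0‖ ≤ ‖P b‖ * ‖v 0‖ := norm_mul_le _ _
        _ ≤ (c * ‖b‖) * 1 := mul_le_mul (hP.bd b) (norm_v hq hv 0) (norm_nonneg _)
            (by positivity)
        _ = c * ‖b‖ := mul_one _
    calc ‖π (⟨P b, hP.mem b⟩ * ⟨v 0, hvM 0⟩) Ω‖
        ≤ ‖π (⟨P b, hP.mem b⟩ * ⟨v 0, hvM 0⟩)‖ * ‖Ω‖ := ContinuousLinearMap.le_opNorm _ _
      _ ≤ (c * ‖b‖) * ‖Ω‖ := mul_le_mul_of_nonneg_right (e1.trans e2) (norm_nonneg _)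
      _ = c * ‖Ω‖ * ‖b‖ := by ring
  have key := hg (H →L[ℂ] H) K T (c * ‖Ω‖) (by positivity) hTb (ι × Fin (L + 1)) x
  -- the left side
  have hTx : ∀ k : ι × Fin (L + 1), ‖T (x k)‖ ^ 2 = ‖π (Ry k.1) Ω‖ ^ 2 := by
    intro k
    have e0 : T (x k) = π (⟨v k.2, hvM k.2⟩ * Ry k.1) Ω := by
      change π (⟨P (x k), hP.mem (x k)⟩ * ⟨v 0, hvM 0⟩) Ω = _
      congr 2
      ext1
      change P (x k) * v 0 = v k.2 * (Ry k.1 : H →L[ℂ] H)
      rw [hR]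
      have e1 : v k.2 * (star (v 0) * P (v 0 * y k.1 * star (v 0)) * v 0) =
          (v k.2 * star (v 0) * P (v 0 * y k.1 * star (v 0))) * v 0 := by noncomm_ring
      rw [e1, ← hl]
      congr 2
      calc v k.2 * y k.1 * star (v 0) = v k.2 * q * y k.1 * star (v 0) := by
            rw [v_mul_q hq hv]
        _ = v k.2 * (star (v 0) * v 0) * y k.1 * star (v 0) := by rw [hv, if_pos rfl]
        _ = v k.2 * star (v 0) * (v 0 * y k.1 * star (v 0)) := by noncomm_ring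
    rw [e0, map_mul]
    have e2 : star (⟨v k.2, hvM k.2⟩ : M.toStarSubalgebra) * ⟨v k.2, hvM k.2⟩ * Ry k.1 =
        Ry k.1 := by
      ext1
      change star (v k.2) * v k.2 * (Ry k.1 : H →L[ℂ] H) = Ry k.1
      rw [hv, if_pos rfl, hR, ← mul_assoc, ← mul_assoc, q_mul_star hq hv]
    have e3 : ((‖(π ⟨v k.2, hvM k.2⟩ * π (Ry k.1)) Ω‖ ^ 2 : ℝ) : ℂ) =
        ((‖π (Ry k.1) Ω‖ ^ 2 : ℝ) : ℂ) := by
      have a1 : ((‖(π ⟨v k.2, hvM k.2⟩ * π (Ry k.1)) Ω‖ ^ 2 : ℝ) : ℂ) =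
          ⟪(π ⟨v k.2, hvM k.2⟩ * π (Ry k.1)) Ω, (π ⟨v k.2, hvM k.2⟩ * π (Ry k.1)) Ω⟫_ℂ := by
        rw [inner_self_eq_norm_sq_to_K]; push_cast; rfl
      have a2 : ((‖π (Ry k.1) Ω‖ ^ 2 : ℝ) : ℂ) = ⟪π (Ry k.1) Ω, π (Ry k.1) Ω⟫_ℂ := by
        rw [inner_self_eq_norm_sq_to_K]; push_cast; rfl
      rw [a1, a2]
      change ⟪π ⟨v k.2, hvM k.2⟩ (π (Ry k.1) Ω), π ⟨v k.2, hvM k.2⟩ (π (Ry k.1) Ω)⟫_ℂ = _
      rw [← ContinuousLinearMap.adjoint_inner_right, ← ContinuousLinearMap.star_eq_adjoint,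
        ← map_star]
      have a3 : (π (star ⟨v k.2, hvM k.2⟩)) (π ⟨v k.2, hvM k.2⟩ (π (Ry k.1) Ω)) =
          π (star (⟨v k.2, hvM k.2⟩ : M.toStarSubalgebra) * ⟨v k.2, hvM k.2⟩ * Ry k.1) Ω := by
        rw [map_mul, map_mul]; rfl
      rw [a3, e2]
    exact_mod_cast e3
  have hL : (0 : ℝ) < (L : ℝ) + 1 := by positivity
  have hsum : ∑ k, ‖T (x k)‖ ^ 2 = ((L : ℝ) + 1) * ∑ r, ‖π (Ry r) Ω‖ ^ 2 := by
    simp_rw [hTx]
    rw [Fintype.sum_prod_type]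
    simp only [sum_const, card_univ, Fintype.card_fin, nsmul_eq_mul]
    rw [← Finset.mul_sum]
    push_cast
    rfl
  -- the right side
  have hcol : ‖∑ k, star (x k) * x k‖ ≤ ((L : ℝ) + 1) * c₁ := by
    refine col_le x (by positivity) fun ζ => ?_
    rw [Fintype.sum_prod_type]
    have e1 : ∀ r : ι, ∑ i : Fin (L + 1), ‖x (r, i) ζ‖ ^ 2 ≤
        ((L : ℝ) + 1) * ‖y r (star (v 0) ζ)‖ ^ 2 := by
      intro r
      calc ∑ i : Fin (L + 1), ‖x (r, i) ζ‖ ^ 2 ≤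
          ∑ _i : Fin (L + 1), ‖y r (star (v 0) ζ)‖ ^ 2 := by
            refine sum_le_sum fun i _ => ?_
            refine pow_le_pow_left₀ (norm_nonneg _) ?_ 2
            change ‖v i (y r (star (v 0) ζ))‖ ≤ _
            exact norm_v_apply hq hv i _
        _ = ((L : ℝ) + 1) * ‖y r (star (v 0) ζ)‖ ^ 2 := by
            simp only [sum_const, card_univ, Fintype.card_fin, nsmul_eq_mul]
            push_cast; rfl
    calc ∑ r, ∑ i : Fin (L + 1), ‖x (r, i) ζ‖ ^ 2 ≤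
        ∑ r, ((L : ℝ) + 1) * ‖y r (star (v 0) ζ)‖ ^ 2 := sum_le_sum fun r _ => e1 r
      _ = ((L : ℝ) + 1) * ∑ r, ‖y r (star (v 0) ζ)‖ ^ 2 := by rw [← Finset.mul_sum]
      _ ≤ ((L : ℝ) + 1) * (c₁ * ‖star (v 0) ζ‖ ^ 2) :=
          mul_le_mul_of_nonneg_left (hy1 _) hL.le
      _ ≤ ((L : ℝ) + 1) * (c₁ * ‖ζ‖ ^ 2) := by
          refine mul_le_mul_of_nonneg_left (mul_le_mul_of_nonneg_left ?_ h1) hL.le
          exact pow_le_pow_left₀ (norm_nonneg _) (norm_star_v_apply hq hv 0 ζ) 2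
      _ = ((L : ℝ) + 1) * c₁ * ‖ζ‖ ^ 2 := by ring
  have hrow : ‖∑ k, x k * star (x k)‖ ≤ c₂ := by
    have := col_le (fun k => star (x k)) h2 (fun ζ => ?_)
    · simpa only [star_star] using this
    rw [Fintype.sum_prod_type_right]
    have e1 : ∀ i : Fin (L + 1), ∑ r : ι, ‖star (x (r, i)) ζ‖ ^ 2 ≤
        c₂ * ‖star (v i) ζ‖ ^ 2 := by
      intro i
      refine le_trans (sum_le_sum fun r _ => ?_) (hy2 (star (v i) ζ))
      refine pow_le_pow_left₀ (norm_nonneg _) ?_ 2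
      have e2 : star (x (r, i)) = v 0 * (star (y r) * star (v i)) := by
        simp only [hx, star_mul, star_star]
      rw [e2]
      change ‖v 0 (star (y r) (star (v i) ζ))‖ ≤ _
      exact norm_v_apply hq hv 0 _
    calc ∑ i : Fin (L + 1), ∑ r, ‖star (x (r, i)) ζ‖ ^ 2 ≤
        ∑ i : Fin (L + 1), c₂ * ‖star (v i) ζ‖ ^ 2 := sum_le_sum fun i _ => e1 i
      _ = c₂ * ∑ i, ‖star (v i) ζ‖ ^ 2 := by rw [← Finset.mul_sum]
      _ ≤ c₂ * ‖ζ‖ ^ 2 := mul_le_mul_of_nonneg_left (sum_star_v hq hv ζ) h2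
  rw [hsum] at key
  have h3 : ((L : ℝ) + 1) * ∑ r, ‖π (Ry r) Ω‖ ^ 2 ≤
      3 * (c * ‖Ω‖) ^ 2 * (((L : ℝ) + 1) * c₁ + c₂) :=
    key.trans (mul_le_mul_of_nonneg_left (add_le_add hcol hrow) (by positivity))
  have h4 : 3 * (c * ‖Ω‖) ^ 2 * (((L : ℝ) + 1) * c₁ + c₂) =
      ((L : ℝ) + 1) * (3 * c ^ 2 * (c₁ + c₂ / (L + 1)) * ‖Ω‖ ^ 2) := by
    field_simp
  rw [h4] at h3
  exact le_of_mul_le_mul_left h3 hL

/-- the adjoint of a linear map of `B(H)` -/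
def dag (P : (H →L[ℂ] H) →ₗ[ℂ] (H →L[ℂ] H)) : (H →L[ℂ] H) →ₗ[ℂ] (H →L[ℂ] H) where
  toFun x := star (P (star x))
  map_add' a b := by simp only [star_add, map_add]
  map_smul' c a := by
    simp only [star_smul, map_smul, RingHom.id_apply, RCLike.star_def, Complex.conj_conj]

/-- the corner map -/
def Rm (M : VonNeumannAlgebra H) (P : (H →L[ℂ] H) →ₗ[ℂ] (H →L[ℂ] H)) (hP : ∀ x, P x ∈ M)
    (v₀ : H →L[ℂ] H) (hv : v₀ ∈ M) : (H →L[ℂ] H) →ₗ[ℂ] M.toStarSubalgebra where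
  toFun x := ⟨star v₀ * P (v₀ * x * star v₀) * v₀,
    M.mul_mem' (M.mul_mem' (M.star_mem' hv) (hP _)) hv⟩
  map_add' a b := by
    ext1
    change star v₀ * P (v₀ * (a + b) * star v₀) * v₀ =
      star v₀ * P (v₀ * a * star v₀) * v₀ + star v₀ * P (v₀ * b * star v₀) * v₀
    rw [mul_add, add_mul, map_add, mul_add, add_mul]
  map_smul' c a := by
    ext1
    change star v₀ * P (v₀ * (c • a) * star v₀) * v₀ = c • (star v₀ * P (v₀ * a * star v₀) * v₀)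
    rw [mul_smul_comm, smul_mul_assoc, map_smul, mul_smul_comm, smul_mul_assoc]

end ZZ48

open ZZ48 in
theorem bp_corner (h : Z_avg) (hg : St_gt.{0, 0}) : Z_corner := by
  intro H _ _ _ M P c hc hP L v q hq hvM hv
  obtain ⟨P', hP', hl, hr⟩ := h H M P c hc hP L v q hq hvM hv
  have hRdef : ∀ x, (Rm M P' hP'.mem (v 0) (hvM 0) x : H →L[ℂ] H) =
    star (v 0) * P' (v 0 * x * star (v 0)) * v 0 := fun x => rfl
  refine ⟨Rm M P' hP'.mem (v 0) (hvM 0), fun x => ⟨?_, ?_, ?_⟩, ?_, ?_⟩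
  · change ‖star (v 0) * P' (v 0 * x * star (v 0)) * v 0‖ ≤ c * ‖x‖
    have n0 := norm_v hq hv 0
    have n1 : ‖star (v 0)‖ ≤ 1 := (norm_star _).trans_le n0
    have e1 : ‖v 0 * x * star (v 0)‖ ≤ ‖x‖ := by
      calc ‖v 0 * x * star (v 0)‖ ≤ ‖v 0 * x‖ * ‖star (v 0)‖ := norm_mul_le _ _
        _ ≤ ‖v 0 * x‖ := mul_le_of_le_one_right (norm_nonneg _) n1
        _ ≤ ‖v 0‖ * ‖x‖ := norm_mul_le _ _
        _ ≤ ‖x‖ := mul_le_of_le_one_left (norm_nonneg _) n0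
    calc ‖star (v 0) * P' (v 0 * x * star (v 0)) * v 0‖
        ≤ ‖star (v 0) * P' (v 0 * x * star (v 0))‖ * ‖v 0‖ := norm_mul_le _ _
      _ ≤ ‖star (v 0) * P' (v 0 * x * star (v 0))‖ := mul_le_of_le_one_right (norm_nonneg _) n0
      _ ≤ ‖star (v 0)‖ * ‖P' (v 0 * x * star (v 0))‖ := norm_mul_le _ _
      _ ≤ ‖P' (v 0 * x * star (v 0))‖ := mul_le_of_le_one_left (norm_nonneg _) n1
      _ ≤ c * ‖v 0 * x * star (v 0)‖ := hP'.bd _
      _ ≤ c * ‖x‖ := mul_le_mul_of_nonneg_left e1 hc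
  · rw [hRdef, ← mul_assoc, ← mul_assoc, q_mul_star hq hv]
  · rw [hRdef, mul_assoc, v_mul_q hq hv]
  · intro m hm h1 h2
    rw [hRdef]
    have hmem : v 0 * m * star (v 0) ∈ M :=
      M.mul_mem' (M.mul_mem' (hvM 0) hm) (M.star_mem' (hvM 0))
    have hq0 : star (v 0) * v 0 = q := by rw [hv, if_pos rfl]
    rw [hP'.fix _ hmem]
    calc star (v 0) * (v 0 * m * star (v 0)) * v 0 =
        (star (v 0) * v 0) * m * (star (v 0) * v 0) := by noncomm_ring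
      _ = m := by rw [hq0, h1, h2]
  · intro K _ _ _ π Ω ι _ y c₁ c₂ h1 h2 hy1 hy2
    refine ⟨?_, ?_⟩
    · exact main hg M P' c hc hP' L v q hq hvM hv hl K π Ω ι y c₁ c₂ h1 h2 hy1 hy2
        (fun i => Rm M P' hP'.mem (v 0) (hvM 0) (y i)) (fun r => hRdef _)
    · have hPd : IsProj M (dag P') c := by
        refine ⟨fun x => M.star_mem' (hP'.mem _), fun m hm => ?_, fun x => ?_⟩
        · change star (P' (star m)) = m
          rw [hP'.fix _ (M.star_mem' hm), star_star]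
        · change ‖star (P' (star x))‖ ≤ c * ‖x‖
          rw [norm_star]
          exact (hP'.bd _).trans (by rw [norm_star])
      have hld : ∀ i j x, dag P' (v i * star (v j) * x) = v i * star (v j) * dag P' x := by
        intro i j x
        change star (P' (star (v i * star (v j) * x))) = v i * star (v j) * star (P' (star x))
        have e1 : star (v i * star (v j) * x) = star x * (v j * star (v i)) := by
          rw [star_mul, star_mul, star_star]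
        rw [e1, hr, star_mul, star_mul, star_star]
      have := main hg M (dag P') c hc hPd L v q hq hvM hv hld K π Ω ι (fun i => star (y i))
        c₂ c₁ h2 h1 hy2 (by simpa only [star_star] using hy1)
        (fun i => star (Rm M P' hP'.mem (v 0) (hvM 0) (y i))) (fun r => by
          change star (star (v 0) * P' (v 0 * y r * star (v 0)) * v 0) =
            star (v 0) * star (P' (star (v 0 * star (y r) * star (v 0)))) * v 0
          simp only [star_mul, star_star, mul_assoc])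
      simpa only [map_star] using this

end H97R2.BP
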